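import Pool.Agent.X238.Vno.Low

/-!
# MP_354fda_al: local v-numbers of binomial edge ideals of crown graphs

Let `G = C_{n,n}` be the crown graph (`n ≥ 3`; the problem has `n ≥ 4`) and `k` any field.  For
every set `T` of vertices (in particular for every `T ∈ C(G)`) there is no homogeneous polynomial
`f` of degree at most `3` with `J_G : f = P_T(G)`.  Together with the known bound
`v_{P_T(G)}(J_G) ≤ 4` this gives `v_{P_T(G)}(J_G) = 4` for all `n ≥ 4` and `T ∈ C(G)`.

The polynomial ring is `MvPolynomial (Vtx n × Bool) k`: `(v, false)` is the variable `x_v`, and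
`(v, true)` is the variable `y_v`.
-/

namespace Pool.Agent.Results.MP_354fda_al.LocalVNumber

open Pool.Agent.X238.Vno

theorem result (k : Type*) [Field k] (n : ℕ) (hn : 3 ≤ n) (T : Set (Vtx n)) (d : ℕ) (hd : d ≤ 3)
    (f : MvPolynomial (Vtx n × Bool) k) (hf : f.IsHomogeneous d) :
    ¬ ∀ g, g * f ∈ edgeIdeal k (crown n) ↔ g ∈ primeIdeal k (crown n) T :=
  no_degree_le_three hn T d hd f hf

end Pool.Agent.Results.MP_354fda_al.LocalVNumber
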